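import Pool.Agent.TH935.DF4
import Pool.Agent.Q56.TF.Near

/-!
# Differences of two primes: all even integers in windows around almost all members of a real sequence

The differences are all the even integers at a distance of at most `log ^ A N` from `r m`, for almost all `m ≤ x`,
where `r 1, ..., r x` is an arbitrary family of real numbers of nearly minimal energy; for instance the (real)
values `β + κ f m` of a polynomial `f` with integer coefficients, with arbitrary real `κ ≠ 0` and `β`, or of a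
generalised polynomial `f t = ∑ w_y t ^ y` whose largest exponent is greater than `1` and not an integer
(`f t = t ^ c`: the sequences of Piatetski-Shapiro). The smaller prime may be prescribed in a residue class and in
an interval.

From Mathlib: `n.primeFactors`: the set of the prime divisors of `n`; `p ≡ a [MOD q]`: the congruence;
`Polynomial ℤ`, `f.eval m`: polynomials and their values; `Finset.Ioc y₁ y₂`: the integers `p` with `y₁ < p ≤ y₂`.
The asymptotic formula for families of integers is from the starting files (`Pool.Agent.TH935.DF.fam_c`).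
-/

set_option autoImplicit false

namespace Pool.Agent.Results.MP_70e905_nt.DifferencesNearRealSequences

open Finset

open Classical in
/-- The energy of order `p` of the family of real numbers `r 1, ..., r x`: the number of the pairs `v`, `w` of
`p`-tuples of elements of `{1, ..., x}` such that `r (v 1) + ... + r (v p)` and `r (w 1) + ... + r (w p)` differ
by at most `1`. -/
noncomputable def energy (p x : ℕ) (r : ℕ → ℝ) : ℕ :=
  (((Fintype.piFinset fun _ : Fin p => Icc 1 x) ×ˢ (Fintype.piFinset fun _ : Fin p => Icc 1 x)).filter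
    (fun q => |∑ i, r (q.1 i) - ∑ i, r (q.2 i)| ≤ 1)).card

/-- The twin prime constant `C₂ = ∏_{p > 2} (1 - 1 / (p - 1) ^ 2)`: the infimum of the decreasing partial products
over the primes `3 ≤ p ≤ z`. -/
noncomputable def C₂ : ℝ := ⨅ z : ℕ, ∏ p ∈ (Icc 3 z).filter Nat.Prime, (1 - 1 / ((p : ℝ) - 1) ^ 2)

/-- The singular series `2 C₂ ∏_{p ∣ n, p > 2} (p - 1) / (p - 2)`. -/
noncomputable def sing (n : ℕ) : ℝ :=
  2 * C₂ * ∏ p ∈ n.primeFactors.filter (fun p => 2 < p), ((p : ℝ) - 1) / ((p : ℝ) - 2)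

/-- The number of the residue classes `α` modulo `q` such that `α` and `α + h` are coprime to `q`. -/
def classes (q h : ℕ) : ℕ := ((range q).filter (fun α => Nat.Coprime α q ∧ Nat.Coprime (α + h) q)).card

/-- The number of the primes `p ≡ a (mod q)` with `y₁ < p ≤ y₂` such that `p + h` is a prime. -/
def pairs (q a h y₁ y₂ : ℕ) : ℕ :=
  ((Ioc y₁ y₂).filter (fun p : ℕ => p.Prime ∧ (p + h).Prime ∧ p ≡ a [MOD q])).card

/-- The prediction for `pairs q a h y₁ y₂`. -/
noncomputable def expected (N q h y₁ y₂ : ℕ) : ℝ :=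
  sing h * ((y₂ : ℝ) - y₁) / (classes q h * Real.log N ^ 2)

/-- The difference `h` is good: for all `q ≤ log ^ D N` and all `a` such that `a` and `a + h` are coprime to `q`, in
every interval `(y₁, y₂]` with `y₂ ≤ B N` of length at least `N / log ^ V N` the number of the primes `p ≡ a (mod q)`
such that `p + h` is a prime is equal to the prediction up to a relative error of at most `ε`. -/
def Good (ε : ℝ) (B V D N h : ℕ) : Prop :=
  ∀ q a : ℕ, 1 ≤ q → (q : ℝ) ≤ Real.log N ^ D → Nat.Coprime a q → Nat.Coprime (a + h) q →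
    ∀ y₁ y₂ : ℕ, y₁ < y₂ → y₂ ≤ B * N → (N : ℝ) / Real.log N ^ V ≤ (y₂ : ℝ) - y₁ →
      |(pairs q a h y₁ y₂ : ℝ) - expected N q h y₁ y₂| ≤ ε * expected N q h y₁ y₂

open Classical in
/-- The number of the `m` in `{1, ..., x}` for which not all positive even integers `h` at a distance of at most `w`
from `r m` have the property `G`. -/
noncomputable def exceptions (x : ℕ) (r : ℕ → ℝ) (w : ℝ) (G : ℕ → Prop) : ℕ :=
  ((Icc 1 x).filter (fun m => ∃ h : ℕ, 0 < h ∧ Even h ∧ |(h : ℝ) - r m| ≤ w ∧ ¬ G h)).card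

/-- The bound at scale `N` for the windows around the `r m`, `m ≤ x`: for all `m ≤ x` with at most `x / log ^ U N`
exceptions all positive even integers `h` with `|h - r m| ≤ log ^ A N` are good differences. -/
def Holds (ε : ℝ) (A B V D U N x : ℕ) (r : ℕ → ℝ) : Prop :=
  (exceptions x r (Real.log N ^ A) (Good ε B V D N) : ℝ) ≤ x / Real.log N ^ U

/-- The sequence `f`, of growth `x ^ e`, has the property at all large scales: for all `x` with
`N / log ^ C N ≤ x ^ e ≤ B N` and all translates `β + f m`, `|β| ≤ B N`. -/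
def Sequence (ε : ℝ) (A B C V D U : ℕ) (f : ℕ → ℝ) (e : ℝ) : Prop :=
  ∃ N₀ : ℕ, ∀ N : ℕ, N₀ ≤ N → ∀ x : ℕ, (x : ℝ) ^ e ≤ B * N → (N : ℝ) ≤ Real.log N ^ C * (x : ℝ) ^ e →
    ∀ β : ℝ, |β| ≤ B * N → Holds ε A B V D U N x (fun m => β + f m)

lemma good_of {ε : ℝ} {B B' V D N : ℕ} (hB : B ≤ B') {h : ℕ}
    (hh : Pool.Agent.TH935.DF.HC ε V D B' N h) : Good ε B V D N h := by
  intro q a hq hqL ha hah y₁ y₂ h12 hy2 hΔ
  exact hh q a hq hqL ha hah y₁ y₂ h12 (hy2.trans (Nat.mul_le_mul_right _ hB)) hΔ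

lemma holds_of (A B B' V D U p C' : ℕ) (hBB : B ≤ B') (ε : ℝ) (hε : 0 < ε) (hε1 : ε ≤ 1 / 2) :
    ∃ N₀ : ℕ, ∀ N : ℕ, N₀ ≤ N → ∀ (x : ℕ) (r : ℕ → ℝ), Pool.Agent.Q56.TF.Near A p B' C' N x r →
      Holds ε A B V D U N x r := by
  classical
  obtain ⟨N₁, h1⟩ := Pool.Agent.TH935.DF.fam_c p V D C' B' U ε hε hε1
  refine ⟨N₁, fun N hN x r hm => ?_⟩
  refine hm.count (fun c => 0 < c ∧ Even c ∧ ¬ Pool.Agent.TH935.DF.HC ε V D B' N c.toNat) _
    (fun s hs hE S hS hSb => h1 N hN x s hs hE S hS hSb) _ (filter_subset _ _) ?_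
  intro m hm
  obtain ⟨_, h, hc0, hc1, hc2, hc3⟩ := mem_filter.1 hm
  exact ⟨h, by exact_mod_cast hc2, by exact_mod_cast hc0, by exact_mod_cast hc1,
    fun h5 => hc3 (good_of hBB (by simpa using h5))⟩

lemma holds_mono {ε ε' : ℝ} (h : ε' ≤ ε) {A B V D U N x : ℕ} {r : ℕ → ℝ}
    (hh : Holds ε' A B V D U N x r) : Holds ε A B V D U N x r := by
  classical
  unfold Holds exceptions at *
  refine le_trans ?_ hh
  apply Nat.cast_le.2
  apply card_le_card
  intro m hm
  rw [mem_filter] at hm ⊢
  obtain ⟨h1, c, h2, h3, h4, h4'⟩ := hm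
  refine ⟨h1, c, h2, h3, h4, fun h5 => h4' ?_⟩
  intro q a hq hqL ha hah y₁ y₂ h12 hy2 hΔ
  refine (h5 q a hq hqL ha hah y₁ y₂ h12 hy2 hΔ).trans ?_
  apply mul_le_mul_of_nonneg_right h
  unfold expected
  have h6 : 0 ≤ sing c := by
    have h7 : sing c = Pool.Agent.H560R3.GB.sing c := rfl
    rw [h7]
    exact zero_le_one.trans (Pool.Agent.W93.GB.one_le_sing _)
  have h8 : (0 : ℝ) ≤ (y₂ : ℝ) - y₁ := by
    have : (y₁ : ℝ) ≤ y₂ := by exact_mod_cast h12.le
    linarith
  positivity

lemma sequence_of {f : ℕ → ℝ} {e : ℝ} (h : Pool.Agent.Q56.TF.Base f e) (he : 1 ≤ e) (A B C V D U : ℕ) (ε : ℝ)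
    (hε : 0 < ε) : Sequence ε A B C V D U f e := by
  obtain ⟨p, B', C', N₀, h1⟩ := Pool.Agent.Q56.TF.near_base h he A B C
  obtain ⟨N₁, h2⟩ := holds_of A B (B + B') V D U p C' (by omega) (min ε (1 / 2)) (lt_min hε (by norm_num))
    (min_le_right _ _)
  exact ⟨N₀ + N₁, fun N hN x hx1 hx2 β hβ => holds_mono (min_le_left _ _)
    (h2 N (by omega) x _ ((h1 N (by omega) x hx1 hx2 β hβ).mono (by omega)))⟩

/-- Let `A`, `B`, `C`, `V`, `D`, `U` and `ε > 0` be fixed.

* For every `p` the following holds for all large `N`. Let `r 1, ..., r x` be an arbitrary family of real numbers in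
  `[-B N, B N]` with an energy of order `p` of at most `log ^ C N` times `x ^ (2 p) / N` (the minimal possible order
  of magnitude). For all `m ≤ x` with at most `x / log ^ U N` exceptions, ALL positive even integers `h` with
  `|h - r m| ≤ log ^ A N` are differences of two primes in the predicted number of ways: for all `q ≤ log ^ D N` and
  all `a` such that `a` and `a + h` are coprime to `q`, and for all intervals `(y₁, y₂]` with `y₂ ≤ B N` and of
  length at least `N / log ^ V N`, the number of the primes `p ≡ a (mod q)` in `(y₁, y₂]` such that `p + h` is a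
  prime is `𝔖(h) (y₂ - y₁) / (φ_h(q) log ^ 2 N)` up to a relative error of at most `ε`, where `φ_h(q)` is the
  number of the admissible classes.
* This holds for `r m = β + κ f m`, `m ≤ x`, where `f` is a fixed nonconstant polynomial with integer
  coefficients, of degree `d`, `κ ≠ 0` is a fixed real number, `β` is any real number with `|β| ≤ B N`, and
  `N / log ^ C N ≤ x ^ d ≤ B N`.
* This holds for `r m = β + ∑ w_y m ^ y` (a sum over a finite set `F` of real exponents `y`), if the largest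
  exponent `e` is greater than `1` and not an integer, `w_e ≠ 0`, `|β| ≤ B N` and `N / log ^ C N ≤ x ^ e ≤ B N`; for
  instance for `r m = β + m ^ e`. -/
theorem result (A B C V D U : ℕ) (ε : ℝ) (hε : 0 < ε) :
    (∀ p : ℕ, ∃ N₀ : ℕ, ∀ N : ℕ, N₀ ≤ N → ∀ (x : ℕ) (r : ℕ → ℝ), (∀ m ∈ Icc 1 x, |r m| ≤ B * N) →
      (energy p x r : ℝ) * N ≤ Real.log N ^ C * (x : ℝ) ^ (2 * p) → Holds ε A B V D U N x r) ∧
    (∀ f : Polynomial ℤ, 1 ≤ f.natDegree → ∀ κ : ℝ, κ ≠ 0 →
      Sequence ε A B C V D U (fun m => κ * ((f.eval (m : ℤ) : ℤ) : ℝ)) f.natDegree) ∧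
    (∀ (F : Finset ℝ) (w : ℝ → ℝ) (e : ℝ), e ∈ F → (∀ y ∈ F, y ≤ e) → w e ≠ 0 → 1 < e → (∀ k : ℕ, e ≠ k) →
      Sequence ε A B C V D U (fun m => ∑ y ∈ F, w y * (m : ℝ) ^ y) e) := by
  classical
  refine ⟨fun p => ?_, fun f hd κ hκ => ?_, fun F w e heF hmax hwe he hen => ?_⟩
  · obtain ⟨B', C', N₀, h1⟩ := Pool.Agent.Q56.TF.near_gen p A B C
    obtain ⟨N₁, h2⟩ := holds_of A B (B + B') V D U p C' (by omega) (min ε (1 / 2)) (lt_min hε (by norm_num))
      (min_le_right _ _)
    exact ⟨N₀ + N₁, fun N hN x r hr hE => holds_mono (min_le_left _ _)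
      (h2 N (by omega) x _ ((h1 N (by omega) x r hr hE).mono (by omega)))⟩
  · exact sequence_of ((Pool.Agent.Q56.TF.base_poly f hd).dil hκ) (by exact_mod_cast hd) A B C V D U ε hε
  · exact sequence_of (Pool.Agent.Q56.TF.base_gp F w e heF hmax hwe he hen) he.le A B C V D U ε hε

end Pool.Agent.Results.MP_70e905_nt.DifferencesNearRealSequences
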