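import Mathlib
import Pool.Agent.Y826.ZC.Cons

/-!
# Differences of arbitrary sets of integers which are gaps between consecutive primes

Call `d` a frequent gap if for every `ε > 0` there are arbitrarily large `x` with at least `x ^ (1 - ε)`
primes `p_n ≤ x` such that `p_{n+1} - p_n = d`. One of the differences of any 289 integers is a frequent
gap, and in every finite set of `n` integers at least `n (n - 288) / 576` pairs have this property. One of
the differences of every admissible 45-tuple, and one of the multiples `2N, 4N, ..., 212N` of every even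
number `2N`, is a frequent gap. (From `DHL[45,2]`, `Pool.Agent.Y826.ZC`.)
-/

set_option autoImplicit false

open Finset Filter

namespace Pool.Agent.Results.MP_70e905_nt.DifferencesOf289

/-- For every `ε > 0` there are arbitrarily large `x` such that the gap between the prime `p_n` (with index
`n = 0, 1, ...`) and the next prime is equal to `d` for at least `x ^ (1 - ε)` primes `p_n ≤ x`. -/
def FrequentGap (d : ℤ) : Prop :=
  ∀ ε : ℝ, 0 < ε → ∃ᶠ x : ℝ in atTop, x ^ (1 - ε) ≤ ({n : ℕ | (Nat.nth Nat.Prime n : ℝ) ≤ x ∧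
    (Nat.nth Nat.Prime (n + 1) : ℤ) - Nat.nth Nat.Prime n = d}.ncard : ℝ)

theorem of_gap {d : ℤ} (h : ∀ ε : ℝ, 0 < ε → ∃ᶠ x : ℝ in atTop,
    x ^ (1 - ε) ≤ ((Pool.Agent.Y826.ZC.gapSet d x).ncard : ℝ)) : FrequentGap d := h

theorem exists_289 (S : Finset ℤ) (hS : 289 ≤ S.card) :
    ∃ a ∈ S, ∃ b ∈ S, a < b ∧ FrequentGap (b - a) := by
  obtain ⟨a, ha, b, hb, hab, h⟩ := Pool.Agent.Y826.ZC.difference_gap289 S hS
  exact ⟨a, ha, b, hb, hab, of_gap h⟩

open Classical in
/-- the pairs of elements of `S` whose difference is a frequent gap -/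
noncomputable def goodPairs (S : Finset ℤ) : Finset (ℤ × ℤ) :=
  (S ×ˢ S).filter fun p => p.1 < p.2 ∧ FrequentGap (p.2 - p.1)

/-- the graph of the pairs whose difference is not a frequent gap -/
def badGraph (S : Finset ℤ) : SimpleGraph S where
  Adj a b := a ≠ b ∧ ¬ FrequentGap (max (a : ℤ) b - min (a : ℤ) b)
  symm := ⟨fun a b h => ⟨h.1.symm, by rw [max_comm, min_comm]; exact h.2⟩⟩
  loopless := ⟨fun a h => h.1 rfl⟩

theorem badGraph_cliqueFree (S : Finset ℤ) : (badGraph S).CliqueFree (288 + 1) := by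
  classical
  intro T hT
  rw [SimpleGraph.isNClique_iff, SimpleGraph.isClique_iff] at hT
  obtain ⟨a, ha, b, hb, hab, h⟩ := exists_289 (T.map (Function.Embedding.subtype _)) (by
    rw [card_map]; exact hT.2.ge)
  rw [Finset.mem_map] at ha hb
  obtain ⟨a', ha', rfl⟩ := ha
  obtain ⟨b', hb', rfl⟩ := hb
  have hab' : (a' : ℤ) < b' := hab
  have hne : a' ≠ b' := by
    rintro rfl
    exact lt_irrefl _ hab'
  have h2 := hT.1 (mem_coe.2 ha') (mem_coe.2 hb') hne
  apply h2.2
  rw [max_eq_right hab'.le, min_eq_left hab'.le]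
  exact h

open Classical in
theorem edges_le (S : Finset ℤ) :
    2 * 288 * (badGraph S).edgeFinset.card ≤ 287 * S.card ^ 2 := by
  obtain ⟨H, _, maxH⟩ := SimpleGraph.exists_isTuranMaximal (V := S) (r := 288) (by norm_num)
  have h1 : (badGraph S).edgeFinset.card ≤ H.edgeFinset.card := by
    convert! maxH.2 (badGraph_cliqueFree S)
  have h2 : H.edgeFinset.card = (SimpleGraph.turanGraph (Fintype.card S) 288).edgeFinset.card :=
    ((SimpleGraph.isTuranMaximal_iff_nonempty_iso_turanGraph (by norm_num)).mp maxH).some.card_edgeFinset_eq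
  have h3 := SimpleGraph.mul_card_edgeFinset_turanGraph_le (n := Fintype.card S) (r := 288)
  rw [Fintype.card_coe] at h2 h3
  calc 2 * 288 * (badGraph S).edgeFinset.card ≤ 2 * 288 * H.edgeFinset.card := by gcongr
    _ = 2 * 288 * (SimpleGraph.turanGraph S.card 288).edgeFinset.card := by rw [h2]
    _ ≤ 287 * S.card ^ 2 := h3

open Classical in
theorem bad_le (S : Finset ℤ) :
    ((S ×ˢ S).filter fun p => p.1 < p.2 ∧ ¬ FrequentGap (p.2 - p.1)).card ≤
      (badGraph S).edgeFinset.card := by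
  refine Finset.card_le_card_of_surjOn (fun e : Sym2 S =>
    (Sym2.lift ⟨fun a b : S => (min (a : ℤ) b, max (a : ℤ) b), fun a b => by
      show (min (a : ℤ) b, max (a : ℤ) b) = (min (b : ℤ) a, max (b : ℤ) a)
      rw [min_comm, max_comm]⟩ e)) ?_
  rintro ⟨a, b⟩ hab
  rw [mem_coe, mem_filter, mem_product] at hab
  obtain ⟨⟨ha, hb⟩, h1, h2⟩ := hab
  simp only at ha hb h1 h2
  refine ⟨s(⟨a, ha⟩, ⟨b, hb⟩), ?_, ?_⟩
  · rw [mem_coe, SimpleGraph.mem_edgeFinset, SimpleGraph.mem_edgeSet]
    refine ⟨fun h => h1.ne (congrArg Subtype.val h), ?_⟩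
    rw [max_eq_right h1.le, min_eq_left h1.le]
    exact h2
  · simp only [Sym2.lift_mk, min_eq_left h1.le, max_eq_right h1.le]

theorem card_sq (S : Finset ℤ) :
    S.card ^ 2 = S.card + 2 * ((S ×ˢ S).filter fun p => p.1 < p.2).card := by
  classical
  have h1 : (S ×ˢ S).card = S.card ^ 2 := by rw [card_product, sq]
  have h2 : (S ×ˢ S) = ((S ×ˢ S).filter fun p => p.1 < p.2) ∪
      (((S ×ˢ S).filter fun p => p.2 < p.1) ∪ S.diag) := by
    ext ⟨a, b⟩
    simp only [mem_product, mem_union, mem_filter, mem_diag]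
    constructor
    · rintro ⟨ha, hb⟩
      rcases lt_trichotomy a b with h | h | h
      · exact Or.inl ⟨⟨ha, hb⟩, h⟩
      · exact Or.inr (Or.inr ⟨ha, h⟩)
      · exact Or.inr (Or.inl ⟨⟨ha, hb⟩, h⟩)
    · rintro (h | h | h)
      · exact h.1
      · exact h.1
      · exact ⟨h.1, h.2 ▸ h.1⟩
  have h3 : ((S ×ˢ S).filter fun p => p.2 < p.1).card = ((S ×ˢ S).filter fun p => p.1 < p.2).card := by
    refine card_bij (fun p _ => (p.2, p.1)) ?_ ?_ ?_
    · rintro ⟨a, b⟩ h
      simp only [mem_filter, mem_product] at h ⊢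
      exact ⟨⟨h.1.2, h.1.1⟩, h.2⟩
    · rintro ⟨a, b⟩ _ ⟨c, d⟩ _ h
      simp only [Prod.mk.injEq] at h ⊢
      exact ⟨h.2, h.1⟩
    · rintro ⟨a, b⟩ h
      simp only [mem_filter, mem_product] at h
      exact ⟨(b, a), by simp only [mem_filter, mem_product]; exact ⟨⟨h.1.2, h.1.1⟩, h.2⟩, rfl⟩
  rw [← h1]
  conv_lhs => rw [h2]
  rw [card_union_of_disjoint, card_union_of_disjoint, h3, diag_card]
  · ring
  · rw [disjoint_left]
    rintro ⟨a, b⟩ h h'
    simp only [mem_filter, mem_diag] at h h'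
    exact h.2.ne h'.2.symm
  · rw [disjoint_left]
    rintro ⟨a, b⟩ h h'
    simp only [mem_filter, mem_diag, mem_union] at h h'
    rcases h' with h' | h'
    · exact lt_asymm h.2 h'.2
    · exact h.2.ne h'.2

theorem main_count (S : Finset ℤ) :
    S.card ^ 2 ≤ 288 * S.card + 576 * (goodPairs S).card := by
  classical
  have h1 := card_sq S
  have h2 := edges_le S
  have h3 := bad_le S
  have h4 : ((S ×ˢ S).filter fun p => p.1 < p.2).card =
      (goodPairs S).card + ((S ×ˢ S).filter fun p => p.1 < p.2 ∧ ¬ FrequentGap (p.2 - p.1)).card := by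
    rw [← card_filter_add_card_filter_not (s := (S ×ˢ S).filter fun p => p.1 < p.2)
      (fun p => FrequentGap (p.2 - p.1)), filter_filter, filter_filter, goodPairs]
  nlinarith

/-- (1) For every finite set `S` of `n` integers at least `n (n - 288) / 576` pairs `a < b` of elements of `S`
have the property that `b - a` is a frequent gap between consecutive primes. (2) In particular this holds
for at least one pair if `n ≥ 289`. (3) One of the differences of every admissible 45-tuple is a frequent gap.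
(4) One of the multiples `2 N, 4 N, ..., 212 N` of every even number `2 N > 0` is a frequent gap. -/
theorem result :
    (∀ S : Finset ℤ, ∃ P : Finset (ℤ × ℤ),
      (∀ p ∈ P, p.1 ∈ S ∧ p.2 ∈ S ∧ p.1 < p.2 ∧ FrequentGap (p.2 - p.1)) ∧
      (S.card : ℝ) * ((S.card : ℝ) - 288) / 576 ≤ P.card) ∧
    (∀ S : Finset ℤ, 289 ≤ S.card → ∃ a ∈ S, ∃ b ∈ S, a < b ∧ FrequentGap (b - a)) ∧
    (∀ a : Fin 45 → ℤ, Function.Injective a →
      (∀ p : ℕ, p.Prime → ∃ r : ℤ, ∀ i, ¬ (p : ℤ) ∣ r + a i) →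
      ∃ i j, a i < a j ∧ FrequentGap (a j - a i)) ∧
    (∀ N : ℕ, 0 < N → ∃ k : ℕ, 1 ≤ k ∧ k ≤ 106 ∧ FrequentGap ((k : ℤ) * (2 * N))) := by
  classical
  refine ⟨fun S => ⟨goodPairs S, ?_, ?_⟩, exists_289, ?_, ?_⟩
  · intro p hp
    rw [goodPairs, mem_filter, mem_product] at hp
    exact ⟨hp.1.1, hp.1.2, hp.2.1, hp.2.2⟩
  · have h := main_count S
    have h' : (S.card : ℝ) ^ 2 ≤ 288 * S.card + 576 * (goodPairs S).card := by exact_mod_cast h
    nlinarith
  · intro a ha hadm
    obtain ⟨i, j, hij, h⟩ := Pool.Agent.Y826.ZC.gap45 a ha hadm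
    exact ⟨i, j, hij, of_gap h⟩
  · intro N hN
    obtain ⟨k, h1, h2, h⟩ := Pool.Agent.Y826.ZC.multiple_gap106 N hN
    exact ⟨k, h1, h2, of_gap h⟩

end Pool.Agent.Results.MP_70e905_nt.DifferencesOf289
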