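import Pool.Agent.Y879.AP.Pair2

/-!
# Almost prime pairs with EVERY even difference in the residue classes of EVERY modulus: the Poisson law

Let `f ≠ 0` be even, `e = 1` or `e = -1`. Call `m` good if neither `m` nor `e m + f` has a prime factor `≤ X ^ (1/r)`
(for `e = 1` this is a pair of almost primes with difference `f`, for `e = -1` a pair with sum `f`). For EVERY `f` and
EVERY modulus `q` up to `X ^ A` (such that `q` does not divide `f` with a quotient `≤ X ^ δ`) the numbers of the good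
`m ≡ b` modulo `q` in `(b, b + q T]`, for the classes `b` which are not excluded by a prime divisor of `q`, are
distributed like a Poisson variable with mean `T V`, up to `ε`, if `T V ≤ x₀`; and this holds already for the `b` in any
interval of length at least `X ^ θ`.
-/

set_option autoImplicit false

namespace Pool.Agent.Results.MP_70e905_nt.EveryDifferenceEveryModulus

open Finset Filter

/-- neither `m` nor `e m + f` has a prime factor `p ≤ X ^ (1/r)` -/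
def Good (e f : ℤ) (r X m : ℕ) : Prop :=
  ∀ p : ℕ, p.Prime → (p : ℝ) ≤ (X : ℝ) ^ (1 / (r : ℝ)) → ¬ (p : ℤ) ∣ m ∧ ¬ (p : ℤ) ∣ e * m + f

/-- the number of the classes modulo `p` of the `m` with `p ∣ m (e m + f)` -/
noncomputable def omega (f : ℤ) (p : ℕ) : ℕ := by
  classical
  exact if (p : ℤ) ∣ f then 1 else 2

/-- the product of `1 - ω(p) / p` over the primes `p ≤ X ^ (1/r)` which do not divide `q` -/
noncomputable def V (f : ℤ) (q r X : ℕ) : ℝ :=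
  ∏ p ∈ (Icc 1 ⌊(X : ℝ) ^ (1 / (r : ℝ))⌋₊).filter (fun p => p.Prime ∧ ¬ p ∣ q), (1 - (omega f p : ℝ) / p)

/-- the product of `1 - ω(p) / p` over the prime divisors of `q` -/
noncomputable def D (f : ℤ) (q : ℕ) : ℝ := ∏ p ∈ q.primeFactors, (1 - (omega f p : ℝ) / p)

/-- no prime divisor of `q` divides `b` or `e b + f` -/
def Reduced (e f : ℤ) (q b : ℕ) : Prop := ∀ p : ℕ, p.Prime → p ∣ q → ¬ (p : ℤ) ∣ b ∧ ¬ (p : ℤ) ∣ e * b + f

open Classical in
/-- the number of the good `m ≡ b` modulo `q` in `(b, b + q T]` -/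
noncomputable def count (e f : ℤ) (q r X T b : ℕ) : ℕ :=
  ((Ioc b (b + q * T)).filter (fun m => m ≡ b [MOD q] ∧ Good e f r X m)).card

lemma nd_iff (e f : ℤ) (p m : ℕ) (hp : p.Prime) :
    (¬ (p : ℤ) ∣ m ∧ ¬ (p : ℤ) ∣ e * m + f) ↔ ¬ Pool.Agent.Y879.AP.Q2 e f p m := by
  unfold Pool.Agent.Y879.AP.Q2
  rw [(Nat.prime_iff_prime_int.1 hp).dvd_mul]
  push Not
  rfl

lemma good_iff (e f : ℤ) (r X m : ℕ) : Good e f r X m ↔
    Pool.Agent.TH464.PO.Sf (Pool.Agent.Y879.AP.Q2 e f) ⌊(X : ℝ) ^ (1 / (r : ℝ))⌋₊ m := by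
  unfold Good Pool.Agent.TH464.PO.Sf Pool.Agent.H373R2.T7.pz
  constructor
  · intro h p hp
    rw [mem_filter, mem_Icc] at hp
    have h1 : (p : ℝ) ≤ (X : ℝ) ^ (1 / (r : ℝ)) :=
      (Nat.le_floor_iff (by positivity)).1 hp.1.2
    exact (nd_iff e f p m hp.2).1 (h p hp.2 h1)
  · intro h p hp h1
    have h2 : p ≤ ⌊(X : ℝ) ^ (1 / (r : ℝ))⌋₊ := Nat.le_floor h1
    exact (nd_iff e f p m hp).2 (h p (mem_filter.2 ⟨mem_Icc.2 ⟨hp.one_lt.le, h2⟩, hp⟩))

lemma omega_eq (e f : ℤ) (he : e * e = 1) (p : ℕ) (hp : p.Prime) :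
    omega f p = Pool.Agent.H373R2.T7.nuB (Pool.Agent.Y879.AP.Q2 e f) p := by
  rw [Pool.Agent.Y879.AP.nuB_Q2 e f he p hp]
  rfl

lemma V_eq (e f : ℤ) (he : e * e = 1) (q r X : ℕ) : V f q r X =
    Pool.Agent.W123.RP.Vq (Pool.Agent.Y879.AP.Qn (Pool.Agent.Y879.AP.Q2 e f) q)
      ⌊(X : ℝ) ^ (1 / (r : ℝ))⌋₊ := by
  unfold V Pool.Agent.W123.RP.Vq Pool.Agent.H373R2.T7.pz
  rw [← filter_filter, prod_filter]
  refine prod_congr rfl (fun p hp => ?_)
  have hpp := (mem_filter.1 hp).2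
  by_cases h : p ∣ q
  · rw [if_neg (by simpa using h), Pool.Agent.Y879.AP.nuB_Qn_dvd _ _ _ h]
    simp
  · rw [if_pos h, Pool.Agent.Y879.AP.nuB_Qn_not _ _ _ h, omega_eq e f he p hpp]

lemma D_eq (e f : ℤ) (he : e * e = 1) (q : ℕ) : D f q =
    Pool.Agent.Y879.AP.RD (Pool.Agent.Y879.AP.Q2 e f) q := by
  unfold D Pool.Agent.Y879.AP.RD
  refine prod_congr rfl (fun p hp => ?_)
  rw [omega_eq e f he p (Nat.prime_of_mem_primeFactors hp)]

lemma reduced_iff (e f : ℤ) (q b : ℕ) : Reduced e f q b ↔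
    Pool.Agent.Y879.AP.Red (Pool.Agent.Y879.AP.Q2 e f) q b := by
  unfold Reduced Pool.Agent.Y879.AP.Red
  refine forall_congr' fun p => ?_
  refine forall_congr' fun hp => ?_
  refine forall_congr' fun _ => ?_
  exact nd_iff e f p b hp

lemma count_eq (e f : ℤ) (q r X T b : ℕ) (hq : 0 < q) : count e f q r X T b =
    Pool.Agent.Y879.AP.Ws (Pool.Agent.Y879.AP.Q2 e f) q ⌊(X : ℝ) ^ (1 / (r : ℝ))⌋₊ T b := by
  classical
  unfold count Pool.Agent.Y879.AP.Ws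
  symm
  apply Finset.card_bij (fun h _ => b + q * h)
  · intro h hh
    rw [mem_filter, mem_Icc] at hh
    rw [mem_filter, mem_Ioc]
    refine ⟨⟨?_, ?_⟩, ?_, ?_⟩
    · have := Nat.mul_pos hq (show 0 < h by omega)
      omega
    · have := Nat.mul_le_mul_left q hh.1.2
      omega
    · exact (Nat.modEq_iff_dvd' (by omega)).2 ⟨h, by omega⟩ |>.symm
    · exact (good_iff e f r X _).2 hh.2
  · intro h1 _ h2 _ h3
    have h4 : q * h1 = q * h2 := by omega
    exact Nat.eq_of_mul_eq_mul_left hq h4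
  · intro m hm
    rw [mem_filter, mem_Ioc] at hm
    obtain ⟨⟨h1, h2⟩, h3, h4⟩ := hm
    obtain ⟨h, hh⟩ := (Nat.modEq_iff_dvd' h1.le).1 h3.symm
    have h5 : m = b + q * h := by omega
    refine ⟨h, ?_, h5.symm⟩
    rw [mem_filter, mem_Icc]
    refine ⟨⟨?_, ?_⟩, ?_⟩
    · rcases Nat.eq_zero_or_pos h with h6 | h6
      · subst h6
        omega
      · exact h6
    · have h6 : q * h ≤ q * T := by omega
      exact Nat.le_of_mul_le_mul_left h6 hq
    · rw [← h5]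
      exact (good_iff e f r X m).1 h4

open Classical in
/-- **The Poisson law for almost prime pairs with every even difference (or sum) over the classes of every modulus.** Let
`A, δ, θ, ε > 0` and `x₀` be real. There is `r₀` such that for every `r ≥ r₀` and every large `X` the following holds
for EVERY even `f ≠ 0` with `|f| ≤ X ^ A`, EVERY `q ≤ X ^ A` such that `|f| ≠ q t` for `1 ≤ t ≤ X ^ δ`, and `e = ± 1`:
for all intervals `(Z, Z + Y]` with `Y ≥ X ^ θ`, every `T` with `T V ≤ x₀` and every set `S` the number of the reduced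
`b` in the interval such that the number of the good `m ≡ b` modulo `q` in `(b, b + q T]` is in `S` is
`Y D ∑_{j ∈ S} exp(-TV) (TV)^j / j!`, up to `ε Y D`. -/
theorem result (A δ θ x₀ ε : ℝ) (hA : 0 < A) (hδ : 0 < δ) (hθ : 0 < θ) (hε : 0 < ε) :
    ∃ r₀ : ℕ, 2 ≤ r₀ ∧ ∀ r : ℕ, r₀ ≤ r → ∃ X₀ : ℕ, ∀ X : ℕ, X₀ ≤ X → ∀ e f : ℤ, ∀ q : ℕ, (e = 1 ∨ e = -1) →
      Even f → f ≠ 0 → |(f : ℝ)| ≤ (X : ℝ) ^ A → 1 ≤ q → (q : ℝ) ≤ (X : ℝ) ^ A →
      (∀ t : ℕ, 1 ≤ t → (t : ℝ) ≤ (X : ℝ) ^ δ → |f| ≠ q * t) →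
      ∀ Z Y : ℕ, (X : ℝ) ^ θ ≤ Y → ∀ T : ℕ, T * V f q r X ≤ x₀ → ∀ S : Finset ℕ,
        |(((Ioc Z (Z + Y)).filter (fun b => Reduced e f q b ∧ count e f q r X T b ∈ S)).card : ℝ) -
          Y * D f q * ∑ j ∈ S, Real.exp (-(T * V f q r X)) * (T * V f q r X) ^ j / j.factorial| ≤
          ε * (Y * D f q) := by
  obtain ⟨r0, hr0, h⟩ := Pool.Agent.Y879.AP.pair_law A δ θ x₀ ε hA hδ hθ hε
  refine ⟨r0, hr0, fun r hr => ?_⟩
  obtain ⟨X₀, hX₀⟩ := eventually_atTop.1 (h r hr)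
  refine ⟨X₀, fun X hX e f q he hf hf0 hfX hq hqX hne Z Y hY T hT S => ?_⟩
  have he2 : e * e = 1 := by
    rcases he with rfl | rfl <;> norm_num
  rw [V_eq e f he2 q r X] at hT ⊢
  rw [D_eq e f he2 q]
  have hne2 : ∀ t : ℕ, 1 ≤ t → (t : ℝ) ≤ (X : ℝ) ^ δ → f ^ 2 ≠ ((q : ℤ) * t) ^ 2 := by
    intro t h1 h2 h3
    apply hne t h1 h2
    have h4 := (sq_eq_sq_iff_abs_eq_abs _ _).1 h3
    rw [h4, abs_of_nonneg (by positivity)]
  have h3 := hX₀ X hX e f q he2 hf hf0 hfX hq hqX hne2 Z Y hY T hT S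
  have e1 : ((Ioc Z (Z + Y)).filter (fun b => Reduced e f q b ∧ count e f q r X T b ∈ S)) =
      ((Ioc Z (Z + Y)).filter (fun b => Pool.Agent.Y879.AP.Red (Pool.Agent.Y879.AP.Q2 e f) q b ∧
        Pool.Agent.Y879.AP.Ws (Pool.Agent.Y879.AP.Q2 e f) q ⌊(X : ℝ) ^ (1 / (r : ℝ))⌋₊ T b ∈ S)) := by
    apply filter_congr
    intro b _
    rw [count_eq e f q r X T b (by omega), reduced_iff]
  rw [e1]
  exact h3

end Pool.Agent.Results.MP_70e905_nt.EveryDifferenceEveryModulus
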