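import Pool.Agent.Q20.AS.Main

/-!
# Differences of two primes, one of them from an arbitrary set of logarithmic size

Let `C`, `J`, `K`, `δ > 0` be fixed and `X` large. Whatever set `A` of at most `C log X` integers `≤ X ^ K` is given, every
interval `[y, y + X ^ δ]`, `y ≤ X ^ K`, contains an even `n > 0` such that none of the even numbers `n, 2n, ..., Jn` is a
difference `p - q` of two primes with `p ∈ A` or `q ∈ A`.
-/

set_option autoImplicit false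

open Finset Filter

namespace Pool.Agent.Results.MP_70e905_nt.SetsOfLogarithmicSize

/-- If `m = p - q` with primes `p`, `q`, then neither `p` nor `q` is an element of `A`. -/
def NoDifferenceWith (A : Set ℕ) (m : ℕ) : Prop :=
  ∀ p q : ℕ, p.Prime → q.Prime → p = q + m → p ∉ A ∧ q ∉ A

lemma uniform (C δ : ℝ) (J K : ℕ) (hδ : 0 < δ) : ∃ X₀ : ℕ, ∀ X : ℕ, X₀ ≤ X → ∀ A : Finset ℕ,
    (∀ a ∈ A, a ≤ X ^ K) → (A.card : ℝ) ≤ C * Real.log X → ∀ y : ℕ, y ≤ X ^ K →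
      ∃ n : ℕ, Even n ∧ 0 < n ∧ y ≤ n ∧ (n : ℝ) ≤ y + (X : ℝ) ^ δ ∧
        ∀ j : ℕ, 1 ≤ j → j ≤ J → NoDifferenceWith A (j * n) := by
  classical
  obtain ⟨X₁, h1⟩ := Pool.Agent.Q20.AS.forms ((J : ℝ) * C + (J : ℝ) * C) δ (J + 2) (K + 1) hδ (by omega)
  refine ⟨X₁ + J + 3, fun X hX A hAX hA y hy => ?_⟩
  have hX1 : 3 ≤ X := by omega
  have hXr : (1 : ℝ) ≤ X := by exact_mod_cast (by omega : 1 ≤ X)
  have hXD : X ≤ X ^ (K + 1) := by
    calc X = X ^ 1 := (pow_one X).symm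
      _ ≤ X ^ (K + 1) := Nat.pow_le_pow_right (by omega) (by omega)
  have hXK : X ^ K ≤ X ^ (K + 1) := Nat.pow_le_pow_right (by omega) (by omega)
  set L1 : Finset (ℕ × ℤ) := (Icc 1 J ×ˢ A).image (fun t : ℕ × ℕ => (t.1, (t.2 : ℤ))) with hL1
  set L2 : Finset (ℕ × ℤ) := (Icc 1 J ×ˢ A).image (fun t : ℕ × ℕ => (t.1, -(t.2 : ℤ))) with hL2
  have hLc : ((L1 ∪ L2).card : ℝ) ≤ ((J : ℝ) * C + (J : ℝ) * C) * Real.log X := by
    have e0 : (Icc 1 J ×ˢ A).card = J * A.card := by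
      rw [card_product, Nat.card_Icc, Nat.add_sub_cancel]
    have e1 : (L1 ∪ L2).card ≤ J * A.card + J * A.card := by
      refine (card_union_le _ _).trans (add_le_add ?_ ?_)
      · exact card_image_le.trans_eq e0
      · exact card_image_le.trans_eq e0
    have e2 : ((L1 ∪ L2).card : ℝ) ≤ J * A.card + J * A.card := by exact_mod_cast e1
    have e3 : (J : ℝ) * A.card ≤ J * (C * Real.log X) := mul_le_mul_of_nonneg_left hA (Nat.cast_nonneg J)
    linarith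
  have hLP : ∀ l ∈ L1 ∪ L2, 1 ≤ l.1 ∧ (∀ p : ℕ, p.Prime → p ∣ l.1 → p ≤ J + 2) ∧ l.1 ≤ X ^ (K + 1) ∧
      |l.2| ≤ (X : ℤ) ^ (K + 1) := by
    intro l hl
    have h2 : ∃ j a : ℕ, 1 ≤ j ∧ j ≤ J ∧ a ∈ A ∧ l.1 = j ∧ |l.2| = (a : ℤ) := by
      rw [mem_union, hL1, hL2, mem_image, mem_image] at hl
      rcases hl with ⟨⟨j, a⟩, hja, rfl⟩ | ⟨⟨j, a⟩, hja, rfl⟩
      · rw [mem_product, mem_Icc] at hja
        exact ⟨j, a, hja.1.1, hja.1.2, hja.2, rfl, by simp⟩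
      · rw [mem_product, mem_Icc] at hja
        exact ⟨j, a, hja.1.1, hja.1.2, hja.2, rfl, by simp⟩
    obtain ⟨j, a, hj1, hjJ, ha, e1, e2⟩ := h2
    rw [e1, e2]
    refine ⟨hj1, ?_, by omega, ?_⟩
    · intro p _ hpd
      have := Nat.le_of_dvd (by omega) hpd
      omega
    · exact_mod_cast (hAX a ha).trans hXK
  obtain ⟨n, hn1, hn2, hn3, hn4, hn5⟩ := h1 X (by omega) (L1 ∪ L2) hLP hLc y 2 0 (hy.trans hXK) (by omega)
    (by omega) {0} (by
      rw [card_singleton, Nat.cast_one]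
      exact Real.one_le_rpow hXr (by linarith))
  have hev : Even n := by
    rw [even_iff_two_dvd]
    exact (Nat.modEq_zero_iff_dvd).1 hn3
  have hn0 : 0 < n := Nat.pos_of_ne_zero (fun h => hn4 (by rw [h]; exact mem_singleton_self 0))
  refine ⟨n, hev, hn0, hn1, hn2, ?_⟩
  intro j hj1 hjJ p q hp hq hpq
  constructor
  · intro hpA
    have hl : (j, -(p : ℤ)) ∈ L1 ∪ L2 := by
      exact mem_union_right _ (mem_image.2
        ⟨(j, p), mem_product.2 ⟨mem_Icc.2 ⟨hj1, hjJ⟩, by simpa using hpA⟩, rfl⟩)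
    obtain ⟨r, hr, -, hrd, hrlt⟩ := hn5 _ hl
    simp only at hrd hrlt
    have e5 : (j : ℤ) * (n : ℤ) + -(p : ℤ) = -(q : ℤ) := by
      rw [hpq]; push_cast; ring
    rw [e5] at hrd hrlt
    rw [abs_neg, Nat.abs_cast] at hrlt
    rw [dvd_neg] at hrd
    have e6 : r ∣ q := by exact_mod_cast hrd
    have e7 : r < q := by exact_mod_cast hrlt
    rcases (Nat.dvd_prime hq).1 e6 with h | h
    · exact hr.one_lt.ne' h
    · omega
  · intro hqA
    have hl : (j, (q : ℤ)) ∈ L1 ∪ L2 := by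
      exact mem_union_left _ (mem_image.2
        ⟨(j, q), mem_product.2 ⟨mem_Icc.2 ⟨hj1, hjJ⟩, by simpa using hqA⟩, rfl⟩)
    obtain ⟨r, hr, -, hrd, hrlt⟩ := hn5 _ hl
    simp only at hrd hrlt
    have e5 : (j : ℤ) * (n : ℤ) + (q : ℤ) = (p : ℤ) := by
      rw [hpq]; push_cast; ring
    rw [e5] at hrd hrlt
    rw [Nat.abs_cast] at hrlt
    have e6 : r ∣ p := by exact_mod_cast hrd
    have e7 : r < p := by exact_mod_cast hrlt
    rcases (Nat.dvd_prime hp).1 e6 with h | h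
    · exact hr.one_lt.ne' h
    · omega

/-- (1) Let `C`, `δ > 0`, `J`, `K` be fixed. For all `X ≥ X₀` and ALL sets `A` of at most `C log X` integers `≤ X ^ K`, every
interval `[y, y + X ^ δ]` with `y ≤ X ^ K` contains an even `n > 0` such that none of the numbers `n, 2n, ..., Jn` is a
difference of two primes one of which is in `A`.

(2) In particular, let `A` be a set of natural numbers with at most `C log x` elements `≤ x` for all large `x`. For all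
`J` and `K` there are infinitely many even `n` such that none of the numbers `n, 2n, ..., Jn` is a difference of two
primes one of which is an element of `A` of size at most `n ^ K`. -/
theorem result :
    (∀ (C δ : ℝ) (J K : ℕ), 0 < δ → ∃ X₀ : ℕ, ∀ X : ℕ, X₀ ≤ X → ∀ A : Finset ℕ, (∀ a ∈ A, a ≤ X ^ K) →
      (A.card : ℝ) ≤ C * Real.log X → ∀ y : ℕ, y ≤ X ^ K →
        ∃ n : ℕ, Even n ∧ 0 < n ∧ y ≤ n ∧ (n : ℝ) ≤ y + (X : ℝ) ^ δ ∧
          ∀ j : ℕ, 1 ≤ j → j ≤ J → NoDifferenceWith A (j * n)) ∧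
    (∀ (A : Set ℕ) (C : ℝ), (∃ x₀ : ℕ, ∀ x : ℕ, x₀ ≤ x → ((A ∩ Set.Icc 0 x).ncard : ℝ) ≤ C * Real.log x) →
      ∀ J K : ℕ, {n : ℕ | Even n ∧
        ∀ j : ℕ, 1 ≤ j → j ≤ J → NoDifferenceWith (A ∩ Set.Icc 0 (n ^ K)) (j * n)}.Infinite) := by
  refine ⟨fun C δ J K hδ => uniform C δ J K hδ, ?_⟩
  intro A C hA J K
  classical
  obtain ⟨x₀, hA⟩ := hA
  obtain ⟨X₀, h⟩ := uniform (((2 * K + 1 : ℕ) : ℝ) * C) 1 J (2 * K + 1) one_pos
  rw [Set.infinite_iff_exists_gt]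
  intro M
  set X : ℕ := X₀ + x₀ + M + 4 with hX
  have hXK : X ≤ X ^ (2 * K + 1) := by
    calc X = X ^ 1 := (pow_one X).symm
      _ ≤ X ^ (2 * K + 1) := Nat.pow_le_pow_right (by omega) (by omega)
  have hfin : (A ∩ Set.Icc 0 (X ^ (2 * K + 1))).Finite :=
    (Set.finite_Icc 0 (X ^ (2 * K + 1))).subset Set.inter_subset_right
  have hc : ((hfin.toFinset).card : ℝ) ≤ ((2 * K + 1 : ℕ) : ℝ) * C * Real.log X := by
    rw [← Set.ncard_eq_toFinset_card _ hfin]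
    refine (hA (X ^ (2 * K + 1)) (by omega)).trans_eq ?_
    push_cast
    rw [Real.log_pow]
    push_cast
    ring
  have hle : ∀ a ∈ hfin.toFinset, a ≤ X ^ (2 * K + 1) := by
    intro a ha
    rw [Set.Finite.mem_toFinset] at ha
    exact ha.2.2
  obtain ⟨n, hev, hn0, hn1, hn2, hn3⟩ := h X (by omega) hfin.toFinset hle hc X hXK
  rw [Real.rpow_one] at hn2
  have hn2' : n ≤ X + X := by exact_mod_cast hn2
  refine ⟨n, ⟨hev, ?_⟩, by omega⟩
  have hnK : n ^ K ≤ X ^ (2 * K + 1) := by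
    calc n ^ K ≤ (X * X) ^ K := Nat.pow_le_pow_left (by nlinarith) K
      _ = X ^ (2 * K) := by rw [← pow_two, ← pow_mul]
      _ ≤ X ^ (2 * K + 1) := Nat.pow_le_pow_right (by omega) (by omega)
  have hsub : A ∩ Set.Icc 0 (n ^ K) ⊆ (hfin.toFinset : Set ℕ) := by
    intro a ha
    rw [Set.Finite.coe_toFinset]
    exact ⟨ha.1, Set.mem_Icc.2 ⟨Nat.zero_le _, ha.2.2.trans hnK⟩⟩
  intro j hj1 hjJ p q hp hq hpq
  obtain ⟨g1, g2⟩ := hn3 j hj1 hjJ p q hp hq hpq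
  exact ⟨fun h => g1 (hsub h), fun h => g2 (hsub h)⟩

end Pool.Agent.Results.MP_70e905_nt.SetsOfLogarithmicSize
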